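import Pool.Agent.V1213.CH.Class

/-!
# Correlations of ARBITRARY multiplicative functions: minor arcs, Bohr sets, and the reduction to progressions

The asymptotic form of Elliott's conjecture asks for bounds of `∑_{n ≤ x} f₁(n + h₁) ⋯ f_k(n + h_k)` which are
uniform in the multiplicative functions `f_i` with values in the unit disc.  We prove for every `k`, unconditionally
and uniformly in ALL tuples of multiplicative functions with values in the unit disc (no hypothesis on `f₁`):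

1. for all scales `N ≤ X` outside a set of small logarithmic measure, all real `α` at a distance of at least `R / N`
   from the fractions with denominators at most `R` and all `y ≤ N`, the sum over `n ≤ y` of
   `f₁(n + h₁) ⋯ f_k(n + h_k) e(α n)` is at most `ε N`, and the restriction of the sum of the problem to the `n ≤ y`
   with `{α n}` in any interval `[u, v)` (a Bohr set, for instance a Beatty sequence) is `v - u` times the whole
   sum, up to `ε N`;
2. for every class of `k`-tuples: the sums over the `n ≤ N` in all progressions are small for most scales, uniformly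
   in the class, if and only if this is true for the sums over `n ≤ y` with all real phases `e(α n)` and all `y ≤ N`.
   So Elliott's conjecture for a class, in progressions and for most scales, contains that for all phases.
-/

set_option autoImplicit false

namespace Pool.Agent.Results.MP_f3f922_nt.MinorArcsAllFunctions

open Finset

/-- `g` is multiplicative with values in the unit disc (on the positive integers). -/
def Mult (g : ℕ → ℂ) : Prop := (∀ n, 1 ≤ n → ‖g n‖ ≤ 1) ∧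
  ∀ m n : ℕ, 1 ≤ m → 1 ≤ n → Nat.Coprime m n → g (m * n) = g m * g n

/-- `f₁(n + h₁) ⋯ f_k(n + h_k)` -/
def corr {k : ℕ} (f : Fin k → ℕ → ℂ) (h : Fin k → ℕ) (n : ℕ) : ℂ := ∏ i, f i (n + h i)

/-- `e(x) = exp(2 π i x)` -/
noncomputable def e (x : ℝ) : ℂ := Complex.exp (2 * Real.pi * x * Complex.I)

/-- `|α - A / q| ≥ R / N` for all fractions `A / q` with `1 ≤ q ≤ R`. -/
def Minor (R N : ℕ) (α : ℝ) : Prop :=
  ∀ q : ℕ, 1 ≤ q → q ≤ R → ∀ A : ℤ, (R : ℝ) ≤ |α - A / q| * N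

open Classical in
/-- The sets `E f` of scales have small logarithmic measure, uniformly in the tuples `f` of the class `C`: for
every `η > 0` and all large `X` the sum of `1 / N` over the `N ≤ X` in `E f` is at most `η log X`, for all `f` in
`C`. -/
def UniformlySmall {k : ℕ} (C : (Fin k → ℕ → ℂ) → Prop) (E : (Fin k → ℕ → ℂ) → Set ℕ) : Prop :=
  ∀ η : ℝ, 0 < η → ∃ X₀ : ℕ, ∀ X : ℕ, X₀ ≤ X → ∀ f, C f →
    ∑ N ∈ Icc 1 X, (if N ∈ E f then (1 : ℝ) / N else 0) ≤ η * Real.log X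

open Pool.Agent.V1213.CH (Pd DM UN Sg)
open Pool.Agent.Y842.PG (z0 z0_le z0_mul)

/-- values at `0` changed to `0` -/
noncomputable def zz {k : ℕ} (f : Fin k → ℕ → ℂ) (t : Fin k) : ℕ → ℂ := z0 (f t)

lemma zz_DM {k : ℕ} {f : Fin k → ℕ → ℂ} (hf : ∀ t, Mult (f t)) (t : Fin k) : DM (zz f t) :=
  ⟨fun n => z0_le _ (hf t).1 n, fun m n h => z0_mul _ (hf t).2 m n h⟩

lemma zz_Pd {k : ℕ} (f : Fin k → ℕ → ℂ) (h : Fin k → ℕ) (n : ℕ) (hn : 1 ≤ n) : Pd (zz f) h n = corr f h n := by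
  unfold Pd corr zz z0
  refine prod_congr rfl fun t _ => ?_
  rw [if_neg (by omega)]

lemma sum_zz {k : ℕ} (f : Fin k → ℕ → ℂ) (h : Fin k → ℕ) (s : Finset ℕ) (y : ℕ) (hs : s ⊆ Icc 1 y) (F : ℕ → ℂ) :
    ∑ n ∈ s, Pd (zz f) h n * F n = ∑ n ∈ s, corr f h n * F n := by
  refine sum_congr rfl fun n hn => ?_
  rw [zz_Pd f h n (mem_Icc.1 (hs hn)).1]

lemma sum_zz1 {k : ℕ} (f : Fin k → ℕ → ℂ) (h : Fin k → ℕ) (s : Finset ℕ) (y : ℕ) (hs : s ⊆ Icc 1 y) :
    ∑ n ∈ s, Pd (zz f) h n = ∑ n ∈ s, corr f h n := by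
  refine sum_congr rfl fun n hn => ?_
  rw [zz_Pd f h n (mem_Icc.1 (hs hn)).1]

open Classical in
lemma UN_iff {k : ℕ} (C : (Fin k → ℕ → ℂ) → Prop) (E E' : (Fin k → ℕ → ℂ) → Set ℕ)
    (hE : ∀ f, C f → E' (zz f) = E f) :
    UN (fun g => ∃ f, C f ∧ g = zz f) E' ↔ UniformlySmall C E := by
  have key : ∀ f, C f → ∀ X : ℕ, Pool.Agent.Y304.U.sE (E' (zz f)) X =
      ∑ N ∈ Icc 1 X, (if N ∈ E f then (1 : ℝ) / N else 0) := by
    intro f hf X
    rw [hE f hf]
    unfold Pool.Agent.Y304.U.sE Pool.Agent.Y304.U.ind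
    refine sum_congr rfl fun n _ => ?_
    split_ifs <;> simp
  constructor
  · intro h η hη
    obtain ⟨X₀, h1⟩ := h η hη
    exact ⟨X₀, fun X hX f hf => by rw [← key f hf X]; exact h1 X hX (zz f) ⟨f, hf, rfl⟩⟩
  · intro h η hη
    obtain ⟨X₀, h1⟩ := h η hη
    refine ⟨X₀, ?_⟩
    rintro X hX g ⟨f, hf, rfl⟩
    rw [key f hf X]
    exact h1 X hX f hf

theorem result (k : ℕ) (hk : 1 ≤ k) (h : Fin k → ℕ) :
    (∀ ε : ℝ, 0 < ε → ∃ R X₀ : ℕ, ∀ X : ℕ, X₀ ≤ X → ∀ f : Fin k → ℕ → ℂ, (∀ i, Mult (f i)) →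
      ∃ T ⊆ Icc 1 X, ∑ N ∈ T, (1 : ℝ) / N ≤ ε * Real.log X ∧
      ∀ N ∈ Icc 1 X, N ∉ T → ∀ α : ℝ, Minor R N α → ∀ y ≤ N,
        ‖∑ n ∈ Icc 1 y, corr f h n * e (α * n)‖ ≤ ε * N ∧
        ∀ u v : ℝ, 0 ≤ u → u ≤ v → v ≤ 1 →
          ‖∑ n ∈ (Icc 1 y).filter (fun n : ℕ => u ≤ Int.fract (α * n) ∧ Int.fract (α * n) < v), corr f h n -
            (v - u) * ∑ n ∈ Icc 1 y, corr f h n‖ ≤ ε * N) ∧
    (∀ C : (Fin k → ℕ → ℂ) → Prop, (∀ f, C f → ∀ i, Mult (f i)) →
      ((∀ q a : ℕ, 1 ≤ q → ∀ ε : ℝ, 0 < ε → UniformlySmall C fun f =>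
        {N : ℕ | ε * N < ‖∑ n ∈ (Icc 1 N).filter (fun n => n % q = a), corr f h n‖}) ↔
      ∀ ε : ℝ, 0 < ε → UniformlySmall C fun f =>
        {N : ℕ | ∃ α : ℝ, ∃ y ≤ N, ε * N < ‖∑ n ∈ Icc 1 y, corr f h n * e (α * n)‖})) := by
  constructor
  · intro ε hε
    obtain ⟨R, X₀, h1⟩ := Pool.Agent.V1213.CH.mult_unif hk h ε hε
    refine ⟨R, X₀, fun X hX f hf => ?_⟩
    obtain ⟨T, hT, hT1, h2⟩ := h1 X hX (zz f) (zz_DM hf)
    refine ⟨T, hT, hT1, fun N hN hNT α hα y hy => ?_⟩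
    obtain ⟨h3, h4⟩ := h2 N hN hNT α hα y hy
    rw [sum_zz f h (Icc 1 y) y subset_rfl] at h3
    refine ⟨h3, fun u v hu huv hv => ?_⟩
    have h5 := h4 u v hu huv hv
    rw [sum_zz1 f h (Icc 1 y) y subset_rfl, sum_zz1 f h _ y (filter_subset _ _)] at h5
    convert h5
  · intro C hC
    have h1 := Pool.Agent.V1213.CH.class_equiv hk h (fun g => ∃ f, C f ∧ g = zz f) (by
      rintro g ⟨f, hf, rfl⟩ t
      exact zz_DM (hC f hf) t)
    constructor
    · intro h2 ε hε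
      have h3 := h1.1 (fun q a hq ε hε => (UN_iff C _ _ (fun f hf => by
        ext N
        rw [Set.mem_ofPred_eq, Set.mem_ofPred_eq, sum_zz1 f h _ N (filter_subset _ _)])).2 (h2 q a hq ε hε)) ε hε
      refine (UN_iff C _ _ (fun f hf => ?_)).1 h3
      ext N
      rw [Set.mem_ofPred_eq, Set.mem_ofPred_eq]
      refine exists_congr fun α => exists_congr fun y => and_congr_right fun _ => ?_
      unfold Sg
      rw [sum_zz f h (Icc 1 y) y subset_rfl]
      rfl
    · intro h2 q a hq ε hε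
      have h3 := h1.2 (fun ε hε => (UN_iff C _ _ (fun f hf => by
        ext N
        rw [Set.mem_ofPred_eq, Set.mem_ofPred_eq]
        refine exists_congr fun α => exists_congr fun y => and_congr_right fun _ => ?_
        unfold Sg
        rw [sum_zz f h (Icc 1 y) y subset_rfl]
        rfl)).2 (h2 ε hε)) q a hq ε hε
      refine (UN_iff C _ _ (fun f hf => ?_)).1 h3
      ext N
      rw [Set.mem_ofPred_eq, Set.mem_ofPred_eq, sum_zz1 f h _ N (filter_subset _ _)]

end Pool.Agent.Results.MP_f3f922_nt.MinorArcsAllFunctions
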