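import Pool.Agent.V11296.RP5

/-!
# Elliott's conjecture for pairs of functions at random distances, uniformly

Let `f` be the Liouville or the Moebius function and let `a i ≠ c i` (`i < r`) be fixed shifts. For all multiplicative
`g_1, …, g_r` with values in the unit disc, for all scales `N ≤ X` outside a set of small logarithmic measure, and for
EVERY bounded function `G` (for instance any product of multiplicative functions of `n + b_1, …, n + b_k`), almost all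
`(h_1, …, h_r)` in `{1, …, N} ^ r` make the correlations of `G(n)` with the products of `f(n + h_i + a_i) g_i(n + h_i + c_i)`
small. The bounds are uniform in `g_1, …, g_r` and `G`.
-/

set_option autoImplicit false

namespace Pool.Agent.Results.MP_f3f922_nt.PairsAtRandomDistances

open Finset

/-- The Liouville function `(-1) ^ Ω(n)`. -/
noncomputable def lam (n : ℕ) : ℂ := (-1 : ℂ) ^ ArithmeticFunction.cardFactors n

/-- The Moebius function. -/
noncomputable def mu (n : ℕ) : ℂ := ((ArithmeticFunction.moebius n : ℤ) : ℂ)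

/-- Multiplicative functions on the positive integers with values in the unit disc. -/
def Mult (g : ℕ → ℂ) : Prop :=
  (∀ n, 1 ≤ n → ‖g n‖ ≤ 1) ∧ ∀ m n : ℕ, 1 ≤ m → 1 ≤ n → Nat.Coprime m n → g (m * n) = g m * g n

/-- The `r`-tuples of numbers from `1` to `N`. -/
def tuples (r N : ℕ) : Finset (Fin r → ℕ) := Fintype.piFinset fun _ => Icc 1 N

theorem result (f : ℕ → ℂ) (hf : f = lam ∨ f = mu) :
    (∀ (r : ℕ) (a c : Fin r → ℕ), (∀ i, a i ≠ c i) → ∀ ε : ℝ, 0 < ε →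
      ∃ X₀ : ℕ, ∀ X : ℕ, X₀ ≤ X → ∀ g : Fin r → ℕ → ℂ, (∀ i, Mult (g i)) →
        ∃ T ⊆ Icc 1 X, ∑ N ∈ T, (1 : ℝ) / N ≤ ε * Real.log X ∧
          ∀ N ∈ Icc 1 X, N ∉ T → ∀ G : ℕ → ℂ, (∀ n, 1 ≤ n → ‖G n‖ ≤ 1) →
            ∃ B ⊆ tuples r N, (B.card : ℝ) ≤ ε * (N : ℝ) ^ r ∧
              ∀ h ∈ tuples r N, h ∉ B → ∀ J : Finset (Fin r), J.Nonempty →
                ‖∑ n ∈ Icc 1 N, G n * ∏ i ∈ J, (f (n + h i + a i) * g i (n + h i + c i))‖ ≤ ε * N) ∧
    (∀ a c : ℕ, a ≠ c → ∀ (L : ℕ) (ε : ℝ), 0 < ε →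
      ∃ X₀ : ℕ, ∀ X : ℕ, X₀ ≤ X → ∀ g : ℕ → ℂ, Mult g →
        ∃ T ⊆ Icc 1 X, ∑ N ∈ T, (1 : ℝ) / N ≤ ε * Real.log X ∧
          ∀ N ∈ Icc 1 X, N ∉ T → ∀ G : Fin L → ℕ → ℂ, (∀ l n, 1 ≤ n → ‖G l n‖ ≤ 1) → ∀ D ⊆ Icc 1 N, ε * N ≤ D.card →
            ∃ h ∈ D, ∀ l, ‖∑ n ∈ Icc 1 N, G l n * f (n + h + a) * g (n + h + c)‖ ≤ ε * N) := by
  classical
  have hf' : Pool.Agent.V11296.RP.Good2 f := by
    rcases hf with rfl | rfl
    · exact Or.inl rfl
    · exact Or.inr rfl
  refine ⟨fun r a c hac ε hε => Pool.Agent.V11296.RP.pairs' f hf' r a c hac ε hε, ?_⟩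
  intro a c hac L ε hε
  set η : ℝ := min ε (ε / (2 * (L + 1))) with hη
  have hη0 : 0 < η := lt_min hε (by positivity)
  obtain ⟨X₀, h0⟩ := Pool.Agent.V11296.RP.pairs' f hf' 1 (fun _ => a) (fun _ => c) (fun _ => hac) η hη0
  refine ⟨X₀, fun X hX g hg => ?_⟩
  obtain ⟨T, hT, hTs, hTg⟩ := h0 X hX (fun _ => g) (fun _ => hg)
  have hlog : 0 ≤ Real.log X := Real.log_natCast_nonneg X
  refine ⟨T, hT, hTs.trans (mul_le_mul_of_nonneg_right (min_le_left _ _) hlog), ?_⟩
  intro N hN hNT G hG D hD hDc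
  have hN0 : (0 : ℝ) < N := by exact_mod_cast (mem_Icc.1 hN).1
  choose B hB hBc hBg using fun l => hTg N hN hNT (G l) (hG l)
  -- the bad shifts
  set W : Finset ℕ := (univ : Finset (Fin L)).biUnion (fun l => (B l).image (fun h => h 0)) with hW
  have hWc : (W.card : ℝ) < D.card := by
    have e1 : (W.card : ℝ) ≤ ∑ l, ((B l).card : ℝ) := by
      have e2 : W.card ≤ ∑ l, ((B l).image (fun h => h 0)).card := card_biUnion_le
      have e3 : ∑ l, ((B l).image (fun h : Fin 1 → ℕ => h 0)).card ≤ ∑ l, (B l).card := sum_le_sum fun l _ => card_image_le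
      exact_mod_cast e2.trans e3
    have e4 : ∑ l, ((B l).card : ℝ) ≤ ∑ _l : Fin L, η * (N : ℝ) ^ 1 := sum_le_sum fun l _ => hBc l
    rw [sum_const, card_univ, Fintype.card_fin, nsmul_eq_mul, pow_one] at e4
    have e5 : η ≤ ε / (2 * (L + 1)) := min_le_right _ _
    have e6 : (L : ℝ) * (η * N) ≤ L * (ε / (2 * (L + 1)) * N) := by
      apply mul_le_mul_of_nonneg_left _ (Nat.cast_nonneg L)
      exact mul_le_mul_of_nonneg_right e5 hN0.le
    have e7 : (L : ℝ) * (ε / (2 * (L + 1)) * N) = (L / (L + 1)) * (ε * N / 2) := by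
      field_simp
    have e8 : ((L : ℝ) / (L + 1)) * (ε * N / 2) ≤ 1 * (ε * N / 2) := by
      apply mul_le_mul_of_nonneg_right _ (by positivity)
      rw [div_le_one (by positivity)]
      linarith
    have e9 : (0 : ℝ) < ε * N := by positivity
    linarith
  obtain ⟨h, hhD, hhW⟩ : ∃ h ∈ D, h ∉ W := by
    by_contra hno
    push Not at hno
    have : D.card ≤ W.card := card_le_card fun h hh => hno h hh
    have : (D.card : ℝ) ≤ W.card := by exact_mod_cast this
    linarith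
  refine ⟨h, hhD, fun l => ?_⟩
  have h1 := hBg l (fun _ => h) (Fintype.mem_piFinset.2 fun _ => hD hhD) (by
    intro hmem
    apply hhW
    rw [hW, mem_biUnion]
    exact ⟨l, mem_univ _, mem_image.2 ⟨_, hmem, rfl⟩⟩) univ univ_nonempty
  have h2 : ∑ n ∈ Icc 1 N, G l n * f (n + h + a) * g (n + h + c) =
      ∑ n ∈ Icc 1 N, G l n * ∏ i : Fin 1, (f (n + (fun _ : Fin 1 => h) i + a) * g (n + (fun _ : Fin 1 => h) i + c)) := by
    refine sum_congr rfl fun n _ => ?_
    rw [Fin.prod_univ_one]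
    ring
  rw [h2]
  exact h1.trans (mul_le_mul_of_nonneg_right (min_le_left _ _) hN0.le)

end Pool.Agent.Results.MP_f3f922_nt.PairsAtRandomDistances
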